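import Mathlib
import Pool.Agent.Helper12.PF.Defs

/-!
# Transforms of bounded polyhedra (helper90, module EP of MP_a61b9a_an, statement ST_EP of helper12)
-/

open MeasureTheory Set MvPolynomial Helper12.ConvexFactor

namespace Pool.Agent.Helper90.A61

/-- `Φ` is an exponential polynomial with homogeneous coefficients over a homogeneous polynomial. -/
def EPk (n k : ℕ) (Φ : (Fin n → ℂ) → ℂ) : Prop :=
  ∃ (D : MvPolynomial (Fin n) ℂ) (e : ℕ) (ι : Type) (_ : Fintype ι) (v : ι → Fin n → ℝ)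
    (N : ι → MvPolynomial (Fin n) ℂ), D ≠ 0 ∧ D.IsHomogeneous (e + k) ∧
    (∀ i, (N i).IsHomogeneous e) ∧ ∀ ζ, eval ζ D * Φ ζ =
      ∑ i, eval ζ (N i) * Complex.exp (-(Complex.I * ∑ j, (v i j : ℂ) * ζ j))

theorem EPk.zero (n : ℕ) : EPk n n (fun _ => 0) := by
  refine ⟨∏ j, X j, 0, Empty, inferInstance, fun i => i.elim, fun i => i.elim, ?_, ?_, ?_, ?_⟩
  · exact Finset.prod_ne_zero_iff.mpr fun j _ => X_ne_zero j
  · have := IsHomogeneous.prod (R := ℂ) Finset.univ (fun j : Fin n => X j) (fun _ => 1)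
      (fun j _ => isHomogeneous_X ℂ j)
    simpa using this
  · exact fun i => i.elim
  · intro ζ; simp

theorem EPk.add {n k : ℕ} {Φ Ψ : (Fin n → ℂ) → ℂ} (h1 : EPk n k Φ) (h2 : EPk n k Ψ) :
    EPk n k (fun ζ => Φ ζ + Ψ ζ) := by
  obtain ⟨D1, e1, ι1, _, v1, N1, hD1, hh1, hN1, he1⟩ := h1
  obtain ⟨D2, e2, ι2, _, v2, N2, hD2, hh2, hN2, he2⟩ := h2
  refine ⟨D1 * D2, e1 + e2 + k, ι1 ⊕ ι2, inferInstance, Sum.elim v1 v2,
    Sum.elim (fun i => D2 * N1 i) (fun i => D1 * N2 i), mul_ne_zero hD1 hD2, ?_, ?_, ?_⟩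
  · have := hh1.mul hh2
    rwa [show e1 + k + (e2 + k) = e1 + e2 + k + k by ring] at this
  · rintro (i | i)
    · have := hh2.mul (hN1 i)
      rwa [show e2 + k + e1 = e1 + e2 + k by ring] at this
    · have := hh1.mul (hN2 i)
      rwa [show e1 + k + e2 = e1 + e2 + k by ring] at this
  · intro ζ
    rw [Fintype.sum_sum_type]
    simp only [Sum.elim_inl, Sum.elim_inr, map_mul]
    have e1' : ∀ i, eval ζ D2 * eval ζ (N1 i) *
        Complex.exp (-(Complex.I * ∑ j, (v1 i j : ℂ) * ζ j)) =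
        eval ζ D2 * (eval ζ (N1 i) * Complex.exp (-(Complex.I * ∑ j, (v1 i j : ℂ) * ζ j))) :=
      fun i => by ring
    have e2' : ∀ i, eval ζ D1 * eval ζ (N2 i) *
        Complex.exp (-(Complex.I * ∑ j, (v2 i j : ℂ) * ζ j)) =
        eval ζ D1 * (eval ζ (N2 i) * Complex.exp (-(Complex.I * ∑ j, (v2 i j : ℂ) * ζ j))) :=
      fun i => by ring
    simp_rw [e1', e2']
    rw [← Finset.mul_sum, ← Finset.mul_sum, ← he1, ← he2]
    ring

theorem EPk.neg {n k : ℕ} {Φ : (Fin n → ℂ) → ℂ} (h1 : EPk n k Φ) :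
    EPk n k (fun ζ => - Φ ζ) := by
  obtain ⟨D1, e1, ι1, _, v1, N1, hD1, hh1, hN1, he1⟩ := h1
  refine ⟨D1, e1, ι1, inferInstance, v1, fun i => - N1 i, hD1, hh1, fun i => (hN1 i).neg, ?_⟩
  intro ζ
  simp only [map_neg, neg_mul, Finset.sum_neg_distrib, mul_neg]
  rw [he1]

theorem EPk.div {n k : ℕ} {Φ : (Fin (n+1) → ℂ) → ℂ}
    (h : EPk (n+1) k (fun ζ => Complex.I * ζ 0 * Φ ζ)) : EPk (n+1) (k+1) Φ := by
  obtain ⟨D1, e1, ι1, _, v1, N1, hD1, hh1, hN1, he1⟩ := h
  refine ⟨D1 * (C Complex.I * X 0), e1, ι1, inferInstance, v1, N1, ?_, ?_, hN1, ?_⟩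
  · refine mul_ne_zero hD1 (mul_ne_zero ?_ (X_ne_zero 0))
    rw [Ne, C_eq_zero]; exact Complex.I_ne_zero
  · have := hh1.mul ((isHomogeneous_C _ Complex.I).mul (isHomogeneous_X ℂ (0 : Fin (n+1))))
    rwa [show e1 + k + (0 + 1) = e1 + (k + 1) by ring] at this
  · intro ζ
    rw [← he1]
    simp only [map_mul, eval_C, eval_X]
    ring

/-- substitution `z ↦ z' + z₀ c` -/
noncomputable def sub {n : ℕ} (c : Fin n → ℝ) (j : Fin n) : MvPolynomial (Fin (n+1)) ℂ :=
  X j.succ + C (c j : ℂ) * X 0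

theorem eval_sub {n : ℕ} (c : Fin n → ℝ) (D : MvPolynomial (Fin n) ℂ) (ζ : Fin (n+1) → ℂ) :
    eval ζ (aeval (sub c) D) = eval (fun j => ζ j.succ + (c j : ℂ) * ζ 0) D := by
  rw [← MvPolynomial.coe_aeval_eq_eval, ← MvPolynomial.coe_aeval_eq_eval]
  show (aeval ζ) ((aeval (sub c)) D) = _
  rw [← AlgHom.comp_apply, comp_aeval]
  have : (fun i => (aeval ζ) (sub c i)) = fun j => ζ j.succ + (c j : ℂ) * ζ 0 := by
    funext j; simp [sub]
  rw [this]
  rfl

theorem hom_sub {n e : ℕ} (c : Fin n → ℝ) {D : MvPolynomial (Fin n) ℂ} (h : D.IsHomogeneous e) :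
    (aeval (sub c) D).IsHomogeneous e := by
  have := h.aeval (sub c) (n := 1) (fun j => by
    refine (isHomogeneous_X ℂ _).add ?_
    have := (isHomogeneous_C (Fin (n+1)) (c j : ℂ)).mul (isHomogeneous_X ℂ (0 : Fin (n+1)))
    simpa using this)
  simpa using this

theorem ne_sub {n : ℕ} (c : Fin n → ℝ) {D : MvPolynomial (Fin n) ℂ} (h : D ≠ 0) :
    aeval (sub c) D ≠ 0 := by
  intro h0
  apply h
  apply MvPolynomial.funext
  intro z
  have := eval_sub c D (Fin.cons 0 z)
  rw [h0] at this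
  simp only [map_zero, Fin.cons_succ, Fin.cons_zero, mul_zero, add_zero] at this
  rw [map_zero]
  exact this.symm

theorem EPk.comp {n k : ℕ} {Φ : (Fin n → ℂ) → ℂ} (h : EPk n k Φ) (c : Fin n → ℝ) (d : ℝ) :
    EPk (n+1) k (fun ζ => Complex.exp (-(Complex.I * ((d : ℂ) * ζ 0))) *
      Φ (fun j => ζ j.succ + (c j : ℂ) * ζ 0)) := by
  obtain ⟨D, e, ι, _, v, N, hD, hh, hN, he⟩ := h
  refine ⟨aeval (sub c) D, e, ι, inferInstance, fun i => Fin.cons (v i ⬝ᵥ c + d) (v i),
    fun i => aeval (sub c) (N i), ne_sub c hD, hom_sub c hh, fun i => hom_sub c (hN i), ?_⟩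
  intro ζ
  simp only [eval_sub]
  rw [mul_left_comm, he, Finset.mul_sum]
  refine Finset.sum_congr rfl fun i _ => ?_
  rw [mul_left_comm, ← Complex.exp_add]
  congr 2
  rw [Fin.sum_univ_succ]
  simp only [Fin.cons_zero, Fin.cons_succ, dotProduct, mul_add, Finset.sum_add_distrib]
  push_cast
  have : ∑ x, (v i x : ℂ) * ((c x : ℂ) * ζ 0) = (∑ x, (v i x : ℂ) * (c x : ℂ)) * ζ 0 := by
    rw [Finset.sum_mul]; exact Finset.sum_congr rfl fun x _ => by ring
  rw [this]
  ring

/-- from `EPk` to the form of `ST_EP` -/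
theorem EPk.final {n k : ℕ} {Φ : (Fin n → ℂ) → ℂ} (h : EPk n k Φ) :
    ∃ (D : MvPolynomial (Fin n) ℂ) (e : ℕ) (V : Finset (Fin n → ℝ))
      (N : (Fin n → ℝ) → MvPolynomial (Fin n) ℂ), D ≠ 0 ∧ D.IsHomogeneous (e + k) ∧
      (∀ v ∈ V, (N v).IsHomogeneous e) ∧
      ∀ ζ, eval ζ D * Φ ζ =
        ∑ v ∈ V, eval ζ (N v) * Complex.exp (-(Complex.I * ∑ j, (v j : ℂ) * ζ j)) := by
  classical
  obtain ⟨D, e, ι, _, v, N, hD, hh, hN, he⟩ := h
  refine ⟨D, e, Finset.univ.image v, fun w => ∑ i with v i = w, N i, hD, hh, ?_, ?_⟩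
  · intro w _
    exact IsHomogeneous.sum _ _ _ fun i _ => hN i
  · intro ζ
    rw [he, ← Finset.sum_fiberwise_of_maps_to (s := Finset.univ) (t := Finset.univ.image v)
      (g := v) (fun i _ => Finset.mem_image_of_mem v (Finset.mem_univ i))]
    refine Finset.sum_congr rfl fun w _ => ?_
    rw [map_sum, Finset.sum_mul]
    refine Finset.sum_congr rfl fun i hi => ?_
    rw [(Finset.mem_filter.mp hi).2]

/-! ## Regions -/

/-- strict or weak inequality -/
def rel (s : Bool) (x y : ℝ) : Prop := if s then x < y else x ≤ y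

/-- a condition `a ⬝ᵥ x < b` or `a ⬝ᵥ x ≤ b`; also an affine function with a strictness mark -/
abbrev Cond (n : ℕ) := (Fin n → ℝ) × ℝ × Bool

/-- region cut out by a list of conditions -/
def Po {n : ℕ} (l : List (Cond n)) : Set (Fin n → ℝ) :=
  {x | ∀ c ∈ l, rel c.2.2 (c.1 ⬝ᵥ x) c.2.1}

/-- affine function of a condition -/
def af {n : ℕ} (p : Cond n) (x : Fin n → ℝ) : ℝ := p.1 ⬝ᵥ x + p.2.1

/-- normal form region in `ℝ^(n+1)` -/
def Reg {n : ℕ} (L U B : List (Cond n)) : Set (Fin (n+1) → ℝ) :=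
  {x | (∀ p ∈ L, rel p.2.2 (af p (Fin.tail x)) (x 0)) ∧
    (∀ p ∈ U, rel p.2.2 (x 0) (af p (Fin.tail x))) ∧ Fin.tail x ∈ Po B}

theorem measurableSet_rel {α : Type*} [MeasurableSpace α] {f g : α → ℝ} (hf : Measurable f)
    (hg : Measurable g) (s : Bool) : MeasurableSet {x | rel s (f x) (g x)} := by
  cases s
  · exact measurableSet_le hf hg
  · exact measurableSet_lt hf hg

theorem measurableSet_list {α β : Type*} [MeasurableSpace α] (P : β → α → Prop) (l : List β)
    (h : ∀ b, MeasurableSet {x | P b x}) : MeasurableSet {x | ∀ b ∈ l, P b x} := by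
  induction l with
  | nil => simp
  | cons b l ih =>
    have : {x | ∀ c ∈ b :: l, P c x} = {x | P b x} ∩ {x | ∀ c ∈ l, P c x} := by
      ext x; simp
    rw [this]
    exact (h b).inter ih

theorem measurable_dot {n : ℕ} (a : Fin n → ℝ) : Measurable fun x : Fin n → ℝ => a ⬝ᵥ x := by
  unfold dotProduct
  fun_prop

theorem measurableSet_Po {n : ℕ} (l : List (Cond n)) : MeasurableSet (Po l) :=
  measurableSet_list _ l fun b => measurableSet_rel (measurable_dot b.1) measurable_const _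

theorem measurable_tail {n : ℕ} : Measurable (Fin.tail : (Fin (n+1) → ℝ) → (Fin n → ℝ)) := by
  unfold Fin.tail
  fun_prop

theorem measurable_af {n : ℕ} (p : Cond n) : Measurable (af p) := by
  unfold af
  exact (measurable_dot p.1).add_const _

theorem measurableSet_Reg {n : ℕ} (L U B : List (Cond n)) : MeasurableSet (Reg L U B) := by
  have h1 : MeasurableSet {x : Fin (n+1) → ℝ | ∀ p ∈ L, rel p.2.2 (af p (Fin.tail x)) (x 0)} :=
    measurableSet_list _ L fun b =>
      measurableSet_rel ((measurable_af b).comp measurable_tail) (measurable_pi_apply 0) _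
  have h2 : MeasurableSet {x : Fin (n+1) → ℝ | ∀ p ∈ U, rel p.2.2 (x 0) (af p (Fin.tail x))} :=
    measurableSet_list _ U fun b =>
      measurableSet_rel (measurable_pi_apply 0) ((measurable_af b).comp measurable_tail) _
  exact h1.inter (h2.inter (measurable_tail (measurableSet_Po B)))

theorem integrableOn_bdd {n : ℕ} {S : Set (Fin n → ℝ)} (hS : Bornology.IsBounded S)
    (ζ : Fin n → ℂ) :
    IntegrableOn (fun x => Complex.exp (-(Complex.I * ∑ j, (x j : ℂ) * ζ j))) S := by
  have hc : IsCompact (closure S) := hS.isCompact_closure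
  have hcont : Continuous fun x : Fin n → ℝ => Complex.exp (-(Complex.I * ∑ j, (x j : ℂ) * ζ j)) := by
    fun_prop
  exact (hcont.continuousOn.integrableOn_compact hc).mono_set subset_closure

theorem ft_union {n : ℕ} {A B : Set (Fin n → ℝ)} (hd : Disjoint A B) (hB : MeasurableSet B)
    (hA : Bornology.IsBounded A) (hB' : Bornology.IsBounded B) (ζ : Fin n → ℂ) :
    indicatorFT (A ∪ B) ζ = indicatorFT A ζ + indicatorFT B ζ :=
  setIntegral_union hd hB (integrableOn_bdd hA ζ) (integrableOn_bdd hB' ζ)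

theorem ft_empty {n : ℕ} : indicatorFT (∅ : Set (Fin n → ℝ)) = fun _ => 0 := by
  funext ζ
  simp [indicatorFT]

/-- the condition `p ≤ q` (or `<`) -/
def cmp {n : ℕ} (s : Bool) (p q : Cond n) : Cond n := (p.1 - q.1, q.2.1 - p.2.1, s)

theorem cmp_iff {n : ℕ} (s : Bool) (p q : Cond n) (x : Fin n → ℝ) :
    rel (cmp s p q).2.2 ((cmp s p q).1 ⬝ᵥ x) (cmp s p q).2.1 ↔ rel s (af p x) (af q x) := by
  cases s <;> simp only [cmp, rel, af, sub_dotProduct, if_true, Bool.false_eq_true, if_false] <;>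
    constructor <;> intro h <;> linarith

theorem mem_Po_cons {n : ℕ} (c : Cond n) (l : List (Cond n)) (x : Fin n → ℝ) :
    x ∈ Po (c :: l) ↔ rel c.2.2 (c.1 ⬝ᵥ x) c.2.1 ∧ x ∈ Po l := by
  simp [Po]

theorem bdd_proj {n : ℕ} {S : Set (Fin (n+1) → ℝ)} (hS : Bornology.IsBounded S)
    {T : Set (Fin n → ℝ)} (h : ∀ x ∈ T, ∃ t : ℝ, Fin.cons t x ∈ S) : Bornology.IsBounded T := by
  obtain ⟨R, hR⟩ := hS.subset_closedBall 0
  refine (Metric.isBounded_closedBall (x := (0 : Fin n → ℝ)) (r := max R 0)).subset fun x hx => ?_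
  obtain ⟨t, ht⟩ := h x hx
  have h1 := hR ht
  rw [mem_closedBall_zero_iff] at h1 ⊢
  rw [pi_norm_le_iff_of_nonneg (le_max_right _ _)]
  intro j
  have h2 := norm_le_pi_norm (Fin.cons t x : Fin (n+1) → ℝ) j.succ
  rw [Fin.cons_succ] at h2
  exact h2.trans (h1.trans (le_max_left _ _))

/-- the one-dimensional slice integral -/
theorem slice_int (s1 s2 : Bool) (a b : ℝ) (z w : ℂ) :
    Complex.I * z * ∫ t, ({t : ℝ | rel s1 a t ∧ rel s2 t b}.indicator
      (fun t : ℝ => Complex.exp (-(Complex.I * (t * z + w))))) t =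
    if a < b then Complex.exp (-(Complex.I * (a * z + w))) - Complex.exp (-(Complex.I * (b * z + w)))
      else 0 := by
  have hms : MeasurableSet {t : ℝ | rel s1 a t ∧ rel s2 t b} :=
    (measurableSet_rel measurable_const measurable_id s1).inter
      (measurableSet_rel measurable_id measurable_const s2)
  rw [integral_indicator hms]
  have hae : {t : ℝ | rel s1 a t ∧ rel s2 t b} =ᵐ[volume] Ioc a b := by
    cases s1 <;> cases s2
    · exact Ioc_ae_eq_Icc.symm
    · exact Ico_ae_eq_Ioc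
    · exact Filter.EventuallyEq.rfl
    · exact Ioo_ae_eq_Ioc
  rw [setIntegral_congr_set hae]
  split_ifs with h
  · rw [← intervalIntegral.integral_of_le h.le, ← intervalIntegral.integral_const_mul]
    have hd : ∀ t ∈ uIcc a b, HasDerivAt (fun t : ℝ => - Complex.exp (-(Complex.I * (t * z + w))))
        (Complex.I * z * Complex.exp (-(Complex.I * (t * z + w)))) t := by
      intro t _
      have h1 : HasDerivAt (fun t : ℝ => -(Complex.I * ((t : ℂ) * z + w))) (-(Complex.I * z)) t := by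
        have h0 : HasDerivAt (fun t : ℝ => (t : ℂ)) 1 t := Complex.ofRealCLM.hasDerivAt
        exact (((h0.mul_const z).add_const w).const_mul Complex.I).neg.congr_deriv (by simp)
      exact h1.cexp.neg.congr_deriv (by ring)
    rw [intervalIntegral.integral_eq_sub_of_hasDerivAt hd]
    · ring
    · apply Continuous.intervalIntegrable
      fun_prop
  · rw [Ioc_eq_empty h]
    simp

theorem mem_Reg_single {n : ℕ} (p q : Cond n) (B : List (Cond n)) (t : ℝ) (x : Fin n → ℝ) :
    (Fin.cons t x : Fin (n+1) → ℝ) ∈ Reg [p] [q] B ↔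
      (rel p.2.2 (af p x) t ∧ rel q.2.2 t (af q x)) ∧ x ∈ Po B := by
  simp [Reg, Fin.tail_cons, and_assoc]

theorem base_bdd {n : ℕ} (p q : Cond n) (B : List (Cond n))
    (hb : Bornology.IsBounded (Reg [p] [q] B)) : Bornology.IsBounded (Po (cmp true p q :: B)) := by
  refine bdd_proj hb fun x hx => ?_
  rw [mem_Po_cons, cmp_iff] at hx
  have h1 : af p x < af q x := by simpa [rel] using hx.1
  refine ⟨(af p x + af q x) / 2, ?_⟩
  rw [mem_Reg_single]
  refine ⟨⟨?_, ?_⟩, hx.2⟩
  · unfold rel; split_ifs <;> linarith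
  · unfold rel; split_ifs <;> linarith

theorem base {n : ℕ} (p q : Cond n) (B : List (Cond n))
    (hb : Bornology.IsBounded (Reg [p] [q] B)) (ζ : Fin (n+1) → ℂ) :
    Complex.I * ζ 0 * indicatorFT (Reg [p] [q] B) ζ =
      Complex.exp (-(Complex.I * ((p.2.1 : ℂ) * ζ 0))) *
        indicatorFT (Po (cmp true p q :: B)) (fun j => ζ j.succ + (p.1 j : ℂ) * ζ 0) +
      -(Complex.exp (-(Complex.I * ((q.2.1 : ℂ) * ζ 0))) *
        indicatorFT (Po (cmp true p q :: B)) (fun j => ζ j.succ + (q.1 j : ℂ) * ζ 0)) := by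
  set S := Reg [p] [q] B with hS
  set F : (Fin (n+1) → ℝ) → ℂ := fun x => Complex.exp (-(Complex.I * ∑ j, (x j : ℂ) * ζ j)) with hF
  have hSm : MeasurableSet S := measurableSet_Reg _ _ _
  have hint : Integrable (S.indicator F) := (integrable_indicator_iff hSm).mpr (integrableOn_bdd hb ζ)
  have hmp := (volume_preserving_piFinSuccAbove (fun _ : Fin (n+1) => ℝ) 0).symm
  set e := (MeasurableEquiv.piFinSuccAbove (fun _ : Fin (n+1) => ℝ) 0).symm with he
  have hecons : ∀ (t : ℝ) (x : Fin n → ℝ), e (t, x) = Fin.cons t x := by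
    intro t x
    rw [he]
    simp [MeasurableEquiv.piFinSuccAbove, Fin.insertNthEquiv]
  have h1 : indicatorFT S ζ = ∫ y, (S.indicator F) (e y) := by
    rw [hmp.integral_comp e.measurableEmbedding, integral_indicator hSm]
    rfl
  have hint2 : Integrable (fun y => (S.indicator F) (e y)) (volume.prod volume) :=
    (hmp.integrable_comp_emb e.measurableEmbedding).mpr hint
  have h2 : ∫ y, (S.indicator F) (e y) = ∫ x : Fin n → ℝ, ∫ t : ℝ, (S.indicator F) (Fin.cons t x) := by
    have := integral_prod_symm (μ := (volume : Measure ℝ)) (ν := (volume : Measure (Fin n → ℝ)))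
      (fun y => (S.indicator F) (e y)) hint2
    have e0 : (fun y => (S.indicator F) (e y)) =
        fun y : ℝ × (Fin n → ℝ) => S.indicator F (Fin.cons y.1 y.2) := by
      funext y; rw [← hecons]
    rw [e0] at this ⊢
    simp only [hecons] at this
    exact this
  set w : (Fin n → ℝ) → ℂ := fun x => ∑ j, (x j : ℂ) * ζ j.succ with hw
  have h3 : ∀ x : Fin n → ℝ, Complex.I * ζ 0 * ∫ t : ℝ, (S.indicator F) (Fin.cons t x) =
      (Po (cmp true p q :: B)).indicator (fun x =>
        Complex.exp (-(Complex.I * ((af p x : ℂ) * ζ 0 + w x))) -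
        Complex.exp (-(Complex.I * ((af q x : ℂ) * ζ 0 + w x)))) x := by
    intro x
    by_cases hx : x ∈ Po B
    · have e1 : (fun t : ℝ => (S.indicator F) (Fin.cons t x)) =
          {t : ℝ | rel p.2.2 (af p x) t ∧ rel q.2.2 t (af q x)}.indicator
            (fun t : ℝ => Complex.exp (-(Complex.I * (t * ζ 0 + w x)))) := by
        funext t
        by_cases ht : rel p.2.2 (af p x) t ∧ rel q.2.2 t (af q x)
        · have ht' : t ∈ {t : ℝ | rel p.2.2 (af p x) t ∧ rel q.2.2 t (af q x)} := ht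
          rw [indicator_of_mem (show (Fin.cons t x : Fin (n+1) → ℝ) ∈ S from
            (mem_Reg_single p q B t x).mpr ⟨ht, hx⟩), indicator_of_mem ht']
          simp only [hF, hw]
          rw [Fin.sum_univ_succ]
          simp
        · have ht' : t ∉ {t : ℝ | rel p.2.2 (af p x) t ∧ rel q.2.2 t (af q x)} := ht
          rw [indicator_of_notMem (show (Fin.cons t x : Fin (n+1) → ℝ) ∉ S from
            fun h => ht ((mem_Reg_single p q B t x).mp h).1), indicator_of_notMem ht']
      rw [e1, slice_int]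
      split_ifs with h
      · rw [indicator_of_mem]
        rw [mem_Po_cons, cmp_iff]
        exact ⟨by simpa [rel] using h, hx⟩
      · rw [indicator_of_notMem]
        rw [mem_Po_cons, cmp_iff]
        intro h'
        exact h (by simpa [rel] using h'.1)
    · rw [indicator_of_notMem (fun h => hx ((mem_Po_cons _ _ _).mp h).2)]
      have e1 : (fun t : ℝ => (S.indicator F) (Fin.cons t x)) = fun _ => 0 := by
        funext t
        rw [indicator_of_notMem]
        intro h
        exact hx ((mem_Reg_single p q B t x).mp h).2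
      rw [e1]
      simp
  have hPm : MeasurableSet (Po (cmp true p q :: B)) := measurableSet_Po _
  have hPb := base_bdd p q B hb
  have h4 : ∀ (r : Cond n) (x : Fin n → ℝ),
      Complex.exp (-(Complex.I * ((af r x : ℂ) * ζ 0 + w x))) =
      Complex.exp (-(Complex.I * ((r.2.1 : ℂ) * ζ 0))) *
        Complex.exp (-(Complex.I * ∑ j, (x j : ℂ) * (ζ j.succ + (r.1 j : ℂ) * ζ 0))) := by
    intro r x
    rw [← Complex.exp_add]
    congr 1
    simp only [af, hw, dotProduct, mul_add, Finset.sum_add_distrib]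
    push_cast
    have : ∑ j, (x j : ℂ) * ((r.1 j : ℂ) * ζ 0) = (∑ j, (r.1 j : ℂ) * (x j : ℂ)) * ζ 0 := by
      rw [Finset.sum_mul]; exact Finset.sum_congr rfl fun x _ => by ring
    rw [this]
    ring
  rw [h1, h2, ← integral_const_mul]
  simp_rw [h3]
  rw [integral_indicator hPm]
  simp_rw [h4]
  rw [integral_sub, integral_const_mul, integral_const_mul]
  · simp only [indicatorFT]; ring
  · exact (integrableOn_bdd hPb _).const_mul _
  · exact (integrableOn_bdd hPb _).const_mul _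

/-! ## Induction -/

theorem rel_trans_left {s1 s2 : Bool} {a b t : ℝ} (h : rel (s1 && !s2) a b) (ht : rel s2 b t) :
    rel s1 a t := by
  cases s1 <;> cases s2 <;> simp only [rel, Bool.and_self, Bool.not_true, Bool.not_false,
    Bool.and_true, Bool.and_false, Bool.false_eq_true, if_false, if_true] at * <;>
    linarith

theorem rel_trans_left' {s1 s2 : Bool} {a b t : ℝ} (h : rel (!(s1 && !s2)) b a) (ht : rel s1 a t) :
    rel s2 b t := by
  cases s1 <;> cases s2 <;> simp [rel] at * <;> linarith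

theorem rel_trans_right {s1 s2 : Bool} {a b t : ℝ} (h : rel (s1 && !s2) b a) (ht : rel s2 t b) :
    rel s1 t a := by
  cases s1 <;> cases s2 <;> simp [rel] at * <;> linarith

theorem rel_trans_right' {s1 s2 : Bool} {a b t : ℝ} (h : rel (!(s1 && !s2)) a b) (ht : rel s1 t a) :
    rel s2 t b := by
  cases s1 <;> cases s2 <;> simp [rel] at * <;> linarith

theorem rel_not (s : Bool) (a b : ℝ) : rel (!s) b a ↔ ¬ rel s a b := by
  cases s <;> simp [rel]

theorem mem_Reg_consL {n : ℕ} (p : Cond n) (L U B : List (Cond n)) (x : Fin (n+1) → ℝ) :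
    x ∈ Reg (p :: L) U B ↔ rel p.2.2 (af p (Fin.tail x)) (x 0) ∧ x ∈ Reg L U B := by
  simp [Reg, and_assoc]

theorem mem_Reg_consU {n : ℕ} (p : Cond n) (L U B : List (Cond n)) (x : Fin (n+1) → ℝ) :
    x ∈ Reg L (p :: U) B ↔ rel p.2.2 (x 0) (af p (Fin.tail x)) ∧ x ∈ Reg L U B := by
  simp only [Reg, mem_ofPred_eq, List.forall_mem_cons]
  tauto

theorem mem_Reg_consB {n : ℕ} (c : Cond n) (L U B : List (Cond n)) (x : Fin (n+1) → ℝ) :
    x ∈ Reg L U (c :: B) ↔ rel c.2.2 (c.1 ⬝ᵥ Fin.tail x) c.2.1 ∧ x ∈ Reg L U B := by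
  simp only [Reg, mem_ofPred_eq, mem_Po_cons]
  tauto

theorem splitL {n : ℕ} (p q : Cond n) (L U B : List (Cond n)) :
    Reg (p :: q :: L) U B = Reg (q :: L) U (cmp (p.2.2 && !q.2.2) p q :: B) ∪
      Reg (p :: L) U (cmp (!(p.2.2 && !q.2.2)) q p :: B) := by
  ext x
  simp only [mem_union, mem_Reg_consL, mem_Reg_consB, cmp_iff]
  constructor
  · rintro ⟨h1, h2, h3⟩
    by_cases h : rel (p.2.2 && !q.2.2) (af p (Fin.tail x)) (af q (Fin.tail x))
    · exact Or.inl ⟨h, h2, h3⟩
    · exact Or.inr ⟨(rel_not _ _ _).mpr h, h1, h3⟩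
  · rintro (⟨h, h2, h3⟩ | ⟨h, h1, h3⟩)
    · exact ⟨rel_trans_left h h2, h2, h3⟩
    · exact ⟨h1, rel_trans_left' h h1, h3⟩

theorem splitL_disj {n : ℕ} (p q : Cond n) (L U B : List (Cond n)) :
    Disjoint (Reg (q :: L) U (cmp (p.2.2 && !q.2.2) p q :: B))
      (Reg (p :: L) U (cmp (!(p.2.2 && !q.2.2)) q p :: B)) := by
  rw [Set.disjoint_left]
  intro x
  simp only [mem_Reg_consL, mem_Reg_consB, cmp_iff]
  rintro ⟨h, _, _⟩ ⟨h', _, _⟩
  exact (rel_not _ _ _).mp h' h

theorem splitU {n : ℕ} (p q : Cond n) (L U B : List (Cond n)) :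
    Reg L (p :: q :: U) B = Reg L (q :: U) (cmp (p.2.2 && !q.2.2) q p :: B) ∪
      Reg L (p :: U) (cmp (!(p.2.2 && !q.2.2)) p q :: B) := by
  ext x
  simp only [mem_union, mem_Reg_consU, mem_Reg_consB, cmp_iff]
  constructor
  · rintro ⟨h1, h2, h3⟩
    by_cases h : rel (p.2.2 && !q.2.2) (af q (Fin.tail x)) (af p (Fin.tail x))
    · exact Or.inl ⟨h, h2, h3⟩
    · exact Or.inr ⟨(rel_not _ _ _).mpr h, h1, h3⟩
  · rintro (⟨h, h2, h3⟩ | ⟨h, h1, h3⟩)
    · exact ⟨rel_trans_right h h2, h2, h3⟩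
    · exact ⟨h1, rel_trans_right' h h1, h3⟩

theorem splitU_disj {n : ℕ} (p q : Cond n) (L U B : List (Cond n)) :
    Disjoint (Reg L (q :: U) (cmp (p.2.2 && !q.2.2) q p :: B))
      (Reg L (p :: U) (cmp (!(p.2.2 && !q.2.2)) p q :: B)) := by
  rw [Set.disjoint_left]
  intro x
  simp only [mem_Reg_consU, mem_Reg_consB, cmp_iff]
  rintro ⟨h, _, _⟩ ⟨h', _, _⟩
  exact (rel_not _ _ _).mp h' h

theorem unb {n : ℕ} {S : Set (Fin (n+1) → ℝ)} (hS : Bornology.IsBounded S) (σ : ℝ) (hσ : σ ≠ 0)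
    (h : ∀ x ∈ S, ∀ t : ℝ, 0 ≤ t → (Fin.cons (x 0 + σ * t) (Fin.tail x) : Fin (n+1) → ℝ) ∈ S) :
    S = ∅ := by
  by_contra hne
  obtain ⟨x, hx⟩ := Set.nonempty_iff_ne_empty.mpr hne
  obtain ⟨R, hR⟩ := hS.subset_closedBall 0
  have h1 : ∀ t : ℝ, 0 ≤ t → |x 0 + σ * t| ≤ R := by
    intro t ht
    have h2 := hR (h x hx t ht)
    rw [mem_closedBall_zero_iff] at h2
    have h3 := norm_le_pi_norm (Fin.cons (x 0 + σ * t) (Fin.tail x) : Fin (n+1) → ℝ) 0
    rw [Fin.cons_zero, Real.norm_eq_abs] at h3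
    exact h3.trans h2
  have h0 := h1 0 le_rfl
  have hR0 : 0 ≤ R := (abs_nonneg _).trans h0
  have h2 := h1 ((2 * R + 1) / |σ|) (by positivity)
  have h3 : |σ * ((2 * R + 1) / |σ|)| = 2 * R + 1 := by
    rw [abs_mul, abs_of_nonneg (show 0 ≤ (2 * R + 1) / |σ| by positivity)]
    have : |σ| ≠ 0 := abs_ne_zero.mpr hσ
    field_simp
  have h4 := abs_sub_abs_le_abs_sub (σ * ((2 * R + 1) / |σ|)) (-(x 0))
  rw [abs_neg, h3, sub_neg_eq_add, add_comm (σ * _)] at h4
  rw [mul_zero, add_zero] at h0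
  linarith

theorem reg_main {n : ℕ} (ih : ∀ l : List (Cond n), Bornology.IsBounded (Po l) →
    EPk n n (indicatorFT (Po l))) :
    ∀ (k : ℕ) (L U B : List (Cond n)), L.length + U.length = k → Bornology.IsBounded (Reg L U B) →
      EPk (n+1) (n+1) (indicatorFT (Reg L U B)) := by
  intro k
  induction k using Nat.strong_induction_on with
  | _ k hk =>
  intro L U B hlen hb
  match L, U, hlen, hb with
  | [], U, hlen, hb =>
    have : Reg ([] : List (Cond n)) U B = ∅ := by
      refine unb hb (-1) (by norm_num) fun x hx t ht => ?_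
      obtain ⟨_, h2, h3⟩ := hx
      refine ⟨by simp, fun p hp => ?_, by simpa using h3⟩
      have := h2 p hp
      rw [Fin.tail_cons, Fin.cons_zero]
      unfold rel at this ⊢
      split_ifs at this ⊢ <;> linarith
    rw [this, ft_empty]
    exact EPk.zero _
  | L, [], hlen, hb =>
    have : Reg L ([] : List (Cond n)) B = ∅ := by
      refine unb hb 1 (by norm_num) fun x hx t ht => ?_
      obtain ⟨h1, _, h3⟩ := hx
      refine ⟨fun p hp => ?_, by simp, by simpa using h3⟩
      have := h1 p hp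
      rw [Fin.tail_cons, Fin.cons_zero]
      unfold rel at this ⊢
      split_ifs at this ⊢ <;> linarith
    rw [this, ft_empty]
    exact EPk.zero _
  | [p], [q], hlen, hb =>
    apply EPk.div
    have h0 := ih _ (base_bdd p q B hb)
    have h1 := (h0.comp p.1 p.2.1).add (h0.comp q.1 q.2.1).neg
    have : (fun ζ : Fin (n+1) → ℂ => Complex.I * ζ 0 * indicatorFT (Reg [p] [q] B) ζ) = _ :=
      funext fun ζ => base p q B hb ζ
    rw [this]
    exact h1
  | p :: q :: L, U, hlen, hb =>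
    rw [splitL] at hb
    have hb1 := hb.subset subset_union_left
    have hb2 := hb.subset subset_union_right
    have h1 := hk _ (by rw [← hlen]; simp) (q :: L) U _ rfl hb1
    have h2 := hk _ (by rw [← hlen]; simp) (p :: L) U _ rfl hb2
    rw [splitL, show indicatorFT _ = _ from
      funext fun ζ => ft_union (splitL_disj p q L U B) (measurableSet_Reg _ _ _) hb1 hb2 ζ]
    exact h1.add h2
  | L, p :: q :: U, hlen, hb =>
    rw [splitU] at hb
    have hb1 := hb.subset subset_union_left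
    have hb2 := hb.subset subset_union_right
    have h1 := hk _ (by rw [← hlen]; simp) L (q :: U) _ rfl hb1
    have h2 := hk _ (by rw [← hlen]; simp) L (p :: U) _ rfl hb2
    rw [splitU, show indicatorFT _ = _ from
      funext fun ζ => ft_union (splitU_disj p q L U B) (measurableSet_Reg _ _ _) hb1 hb2 ζ]
    exact h1.add h2

theorem po_reg {n : ℕ} (l : List (Cond (n+1))) : ∃ L U B : List (Cond n), Po l = Reg L U B := by
  induction l with
  | nil => exact ⟨[], [], [], by ext x; simp [Po, Reg]⟩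
  | cons c l ih =>
    obtain ⟨L, U, B, h⟩ := ih
    have hdot : ∀ x : Fin (n+1) → ℝ, c.1 ⬝ᵥ x = c.1 0 * x 0 + Fin.tail c.1 ⬝ᵥ Fin.tail x := by
      intro x; simp [dotProduct, Fin.sum_univ_succ, Fin.tail]
    rcases lt_trichotomy (c.1 0) 0 with h0 | h0 | h0
    · refine ⟨((-(c.1 0)⁻¹) • Fin.tail c.1, (c.1 0)⁻¹ * c.2.1, c.2.2) :: L, U, B, ?_⟩
      ext x
      rw [mem_Po_cons, mem_Reg_consL, h, hdot]
      refine and_congr_left fun _ => ?_
      simp only [af, smul_dotProduct, smul_eq_mul]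
      have e1 : x 0 = (c.1 0)⁻¹ * (c.1 0 * x 0) := by
        rw [← mul_assoc, inv_mul_cancel₀ h0.ne, one_mul]
      set τ := Fin.tail c.1 ⬝ᵥ Fin.tail x
      have h0' : (c.1 0)⁻¹ < 0 := inv_lt_zero.mpr h0
      unfold rel
      split_ifs
      · constructor
        · intro h; nlinarith
        · intro h
          by_contra h'
          push Not at h'
          nlinarith
      · constructor
        · intro h; nlinarith
        · intro h
          by_contra h'
          push Not at h'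
          nlinarith
    · refine ⟨L, U, (Fin.tail c.1, c.2.1, c.2.2) :: B, ?_⟩
      ext x
      rw [mem_Po_cons, mem_Reg_consB, h, hdot, h0, zero_mul, zero_add]
    · refine ⟨L, ((-(c.1 0)⁻¹) • Fin.tail c.1, (c.1 0)⁻¹ * c.2.1, c.2.2) :: U, B, ?_⟩
      ext x
      rw [mem_Po_cons, mem_Reg_consU, h, hdot]
      refine and_congr_left fun _ => ?_
      simp only [af, smul_dotProduct, smul_eq_mul]
      have e1 : x 0 = (c.1 0)⁻¹ * (c.1 0 * x 0) := by
        rw [← mul_assoc, inv_mul_cancel₀ h0.ne', one_mul]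
      set τ := Fin.tail c.1 ⬝ᵥ Fin.tail x
      have h0' : 0 < (c.1 0)⁻¹ := inv_pos.mpr h0
      unfold rel
      split_ifs
      · constructor
        · intro h; nlinarith
        · intro h
          by_contra h'
          push Not at h'
          nlinarith
      · constructor
        · intro h; nlinarith
        · intro h
          by_contra h'
          push Not at h'
          nlinarith

theorem po_main : ∀ (n : ℕ) (l : List (Cond n)), Bornology.IsBounded (Po l) →
    EPk n n (indicatorFT (Po l)) := by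
  intro n
  induction n with
  | zero =>
    intro l _
    refine ⟨1, 0, Unit, inferInstance, fun _ => 0, fun _ => C (indicatorFT (Po l) 0), one_ne_zero,
      isHomogeneous_one _ _, fun _ => isHomogeneous_C _ _, fun ζ => ?_⟩
    rw [Subsingleton.elim ζ 0]
    simp
  | succ n ih =>
    intro l hb
    obtain ⟨L, U, B, h⟩ := po_reg l
    rw [h] at hb ⊢
    exact reg_main ih _ L U B rfl hb

theorem ep : Helper12.PF.ST_EP := by
  intro n m a b hb
  have h : {x : Fin n → ℝ | ∀ i, a i ⬝ᵥ x ≤ b i} =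
      Po (List.ofFn fun i => ((a i, b i, false) : Cond n)) := by
    ext x
    simp [Po, rel, List.mem_ofFn]
  rw [h] at hb ⊢
  exact (po_main n _ hb).final

end Pool.Agent.Helper90.A61
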